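import Pool.Agent.Helper95.CF.Stmts
import Pool.Agent.Helper21.LN.TBL

/-!
# CF, row TLS: lower bound of the kinetic energy of an approximate ground state
-/

set_option autoImplicit false

namespace Pool.Agent.Helper21.CF

open MeasureTheory Filter Pool.Agent.Helper95.PW Pool.Agent.Helper95.LN Pool.Agent.Helper95.CF
open Pool.Agent.Helper21.LN

/-- the pointwise bound -/
theorem tls_pt (h1 : ST_ES1X) (hK : ST_KK) (z d : ℝ) (hz : 0 ≤ z) (hd : 0 < d)
    (n M : ℕ) (X : Fin M → R3) (Z : Fin M → ℝ) (x : Cf n) (t : ℝ) (ht : 0 < t) (hS : Sep X d)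
    (hN : Nuc n Z) (hZ : ∀ j, Z j ≤ z) (hx : Dist X x) :
    -((8 * (1 + z) / d * n + z * (n / (4 * t))) + z * t * ∑ k, near2 X d (x k)) ≤ Vc X Z x := by
  have h2 := h1 z d hz hd n M X Z x hS hN hZ hx
  have h3 := tbl_Dn (d / 8) X Z x
  have h4 := tbl_Rem hK (d / 8) (by positivity) X x hx
  have h5 : ∑ k, near1 X d (x k) ≤ t * (∑ k, near2 X d (x k)) + n / (4 * t) := by
    calc ∑ k, near1 X d (x k) ≤ ∑ k : Fin n, (t * near2 X d (x k) + 1 / (4 * t)) :=
          Finset.sum_le_sum fun k _ => tbl_near X d t hd ht hS (x k)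
      _ = t * (∑ k, near2 X d (x k)) + n / (4 * t) := by
          rw [Finset.sum_add_distrib, Finset.sum_const, Finset.card_univ, Fintype.card_fin,
            nsmul_eq_mul, ← Finset.mul_sum]
          ring
  have h6 := mul_le_mul_of_nonneg_left h5 hz
  nlinarith

/-- the integrated bound -/
theorem tls_int (h1 : ST_ES1X) (h2 : ST_AED) (h3 : ST_HLOC) (h7 : ST_INTM) (hK : ST_KK)
    (z d : ℝ) (hz : 0 ≤ z) (hd : 0 < d)
    (n M : ℕ) (X : Fin M → R3) (Z : Fin M → ℝ) (u : Wf n) (t : ℝ) (ht : 0 < t) (hS : Sep X d)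
    (hN : Nuc n Z) (hZ : ∀ j, Z j ≤ z) (hu : Sm u) :
    kin u ≤ QM X Z u + nucR X Z * Helper95.PW.sq u +
      (8 * (1 + z) / d * n + z * (n / (4 * t))) * Helper95.PW.sq u +
      z * t * one (near2 X d) u := by
  obtain ⟨C2, hC2, H2⟩ := h3
  obtain ⟨hint, _⟩ := H2 n M X d u hd hS hu
  obtain ⟨C, hC⟩ : ∃ C : ℝ, C = 8 * (1 + z) / d := ⟨_, rfl⟩
  have H := tls_pt h1 hK z d hz hd n M X Z
  rw [← hC] at H ⊢
  have key : ∀ s, -((C * n + z * (n / (4 * t))) * (∫ x, u s x ^ 2) +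
      z * t * ∫ x, (∑ k, near2 X d (x k)) * u s x ^ 2) ≤
      (∫ x, rep x * u s x ^ 2) - (∫ x, (∑ k, pot X Z (x k)) * u s x ^ 2) +
        nucR X Z * ∫ x, u s x ^ 2 := by
    intro s
    obtain ⟨i1, i2, _, _⟩ := h7 n M X Z (u s) (u s) (hu s).1 (hu s).2 (hu s).1 (hu s).2
    have e1 : (fun x : Cf n => (∑ k, pot X Z (x k)) * (u s x * u s x)) =
        fun x : Cf n => (∑ k, pot X Z (x k)) * u s x ^ 2 := by
      funext x; rw [pow_two]
    have e2 : (fun x : Cf n => rep x * (u s x * u s x)) =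
        fun x : Cf n => rep x * u s x ^ 2 := by
      funext x; rw [pow_two]
    rw [e1] at i1
    rw [e2] at i2
    have i3 : Integrable (fun x : Cf n => u s x ^ 2) :=
      (com_memLp _ (hu s).1 (hu s).2).integrable_sq
    have i4 := hint s
    have j1 : Integrable (fun x : Cf n => rep x * u s x ^ 2 -
        (∑ k, pot X Z (x k)) * u s x ^ 2) := i2.sub i1
    have j2 : Integrable (fun x : Cf n => nucR X Z * u s x ^ 2) := i3.const_mul _
    have j3 : Integrable (fun x : Cf n => (C * n + z * (n / (4 * t))) * u s x ^ 2) :=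
      i3.const_mul _
    have j4 : Integrable (fun x : Cf n => z * t * ((∑ k, near2 X d (x k)) * u s x ^ 2)) :=
      i4.const_mul _
    rw [← integral_const_mul, ← integral_const_mul, ← integral_add j3 j4, ← integral_neg,
      ← integral_sub i2 i1, ← integral_const_mul, ← integral_add j1 j2]
    refine integral_mono_ae (j3.add j4).neg (j1.add j2) ?_
    filter_upwards [h2 n M X] with x hx
    have h4 := H x t ht hS hN hZ hx
    have h5 := mul_le_mul_of_nonneg_right h4 (sq_nonneg (u s x))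
    unfold Vc at h5
    show -((C * n + z * (n / (4 * t))) * u s x ^ 2 +
      z * t * ((∑ k, near2 X d (x k)) * u s x ^ 2)) ≤
      rep x * u s x ^ 2 - (∑ k, pot X Z (x k)) * u s x ^ 2 + nucR X Z * u s x ^ 2
    linarith
  have hsum := Finset.sum_le_sum fun s (_ : s ∈ Finset.univ) => key s
  rw [Finset.sum_neg_distrib, Finset.sum_add_distrib, Finset.sum_add_distrib,
    Finset.sum_sub_distrib, ← Finset.mul_sum, ← Finset.mul_sum, ← Finset.mul_sum] at hsum
  have e3 : QM X Z u = kin u + pair u - one (pot X Z) u := rfl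
  have e4 : pair u = ∑ s, ∫ x, rep x * u s x ^ 2 := rfl
  have e5 : one (pot X Z) u = ∑ s, ∫ x, (∑ k, pot X Z (x k)) * u s x ^ 2 := rfl
  have e6 : Helper95.PW.sq u = ∑ s, ∫ x, u s x ^ 2 := rfl
  have e7 : one (near2 X d) u = ∑ s, ∫ x, (∑ k, near2 X d (x k)) * u s x ^ 2 := rfl
  rw [← e4, ← e5, ← e6, ← e7] at hsum
  linarith

/-- the upper bound for the form by the residuum -/
theorem tls_Q (hQ : ST_QHM) (hI : ST_INTM) {n M : ℕ} (X : Fin M → R3) (Z : Fin M → ℝ) (E t : ℝ)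
    (ht : 0 < t) (u : Wf n) (hu : Sm u) : QM X Z u ≤ E * Helper95.PW.sq u +
      t * Helper95.PW.sq u + 1 / (4 * t) * resM X Z E u := by
  obtain ⟨h1, h2⟩ := hQ n M X Z u u hu hu
  rw [h2, h1]
  unfold resM Helper95.PW.sq
  rw [Finset.mul_sum, Finset.mul_sum, Finset.mul_sum, ← Finset.sum_add_distrib,
    ← Finset.sum_add_distrib]
  apply Finset.sum_le_sum
  intro s _
  have hu2 : MemLp (u s) 2 volume := com_memLp _ (hu s).1 (hu s).2
  have hh : MemLp (hmM X Z (u s)) 2 volume := innm_hm_memLp hI X Z _ (hu s).1 (hu s).2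
  have hd : MemLp (fun x => hmM X Z (u s) x - E * u s x) 2 volume := hh.sub (hu2.const_mul E)
  have i1 : Integrable (fun x => u s x ^ 2) := hu2.integrable_sq
  have i2 : Integrable (fun x => (hmM X Z (u s) x - E * u s x) ^ 2) := hd.integrable_sq
  have i3 : Integrable (fun x => u s x * hmM X Z (u s) x) := hu2.integrable_mul hh
  have j1 : Integrable (fun x => E * u s x ^ 2) := i1.const_mul E
  have j2 : Integrable (fun x => t * u s x ^ 2) := i1.const_mul t
  have j3 : Integrable (fun x => 1 / (4 * t) * (hmM X Z (u s) x - E * u s x) ^ 2) :=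
    i2.const_mul _
  rw [← integral_const_mul, ← integral_const_mul, ← integral_const_mul,
    ← integral_add j1 j2]
  have j4 : Integrable (fun x => E * u s x ^ 2 + t * u s x ^ 2) := j1.add j2
  rw [← integral_add j4 j3]
  refine integral_mono i3 (j4.add j3) fun x => ?_
  show u s x * hmM X Z (u s) x ≤
    E * u s x ^ 2 + t * u s x ^ 2 + 1 / (4 * t) * (hmM X Z (u s) x - E * u s x) ^ 2
  have h3 : E * u s x ^ 2 + t * u s x ^ 2 + 1 / (4 * t) * (hmM X Z (u s) x - E * u s x) ^ 2 -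
      u s x * hmM X Z (u s) x =
      (2 * t * u s x - (hmM X Z (u s) x - E * u s x)) ^ 2 / (4 * t) := by
    field_simp
    ring
  have h4 : 0 ≤ (2 * t * u s x - (hmM X Z (u s) x - E * u s x)) ^ 2 / (4 * t) := by positivity
  linarith

/-- row TLS -/
theorem TLS (h1 : ST_ES1X) (h2 : ST_KK) (h3 : ST_AED) (h4 : ST_HLOC) (h5 : ST_QHM)
    (h6 : ST_INTM) : ST_TLS := by
  intro z c0 hz hc
  obtain ⟨C2, hC2, H2⟩ := h4
  obtain ⟨t, ht⟩ : ∃ t : ℝ, t = 2 * (z + 1) / c0 := ⟨_, rfl⟩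
  have ht0 : 0 < t := by rw [ht]; positivity
  obtain ⟨B, hB⟩ : ∃ B : ℝ, B = z * t * C2 := ⟨_, rfl⟩
  have hB0 : 0 ≤ B := by rw [hB]; positivity
  obtain ⟨d, hd⟩ : ∃ d : ℝ, d = 1 + 64 * (1 + z) / c0 + 8 * B / c0 := ⟨_, rfl⟩
  have hd1 : 1 ≤ d := by
    have : 0 ≤ 64 * (1 + z) / c0 := by positivity
    have : 0 ≤ 8 * B / c0 := by positivity
    linarith
  have hd0 : 0 < d := by linarith
  have q1 : 8 * (1 + z) / d ≤ c0 / 8 := by
    rw [div_le_iff₀ hd0]
    have e : c0 / 8 * d = c0 / 8 + 8 * (1 + z) + B := by rw [hd]; field_simp; ring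
    rw [e]
    linarith
  have q2 : z / (4 * t) ≤ c0 / 8 := by
    rw [div_le_iff₀ (by positivity)]
    have e : c0 / 8 * (4 * t) = z + 1 := by rw [ht]; field_simp; ring
    rw [e]
    linarith
  have q3 : B / d ^ 2 ≤ c0 / 8 := by
    rw [div_le_iff₀ (by positivity)]
    have e : c0 / 8 * d = c0 / 8 + 8 * (1 + z) + B := by rw [hd]; field_simp; ring
    have e2 : c0 / 8 * d ≤ c0 / 8 * d ^ 2 := by
      refine mul_le_mul_of_nonneg_left ?_ (by positivity)
      nlinarith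
    linarith
  refine ⟨d, c0 / (8 * (B + 1)), c0 ^ 2 / 16, hd0, by positivity, by positivity, ?_⟩
  intro n M X Z E u hn hN hZ hS hE hu hsq1 hsq2 hres
  have hn1 : (1 : ℝ) ≤ n := by exact_mod_cast hn
  have a1 := tls_int h1 h3 ⟨C2, hC2, H2⟩ h6 h2 z d hz hd0 n M X Z u t ht0 hS hN hZ hu
  have a2 := tls_Q h5 h6 X Z E (c0 / 8) (by positivity) u hu
  have a3 := (H2 n M X d u hd0 hS hu).2
  obtain ⟨S, hSd⟩ : ∃ S : ℝ, S = Helper95.PW.sq u := ⟨_, rfl⟩
  have k0 : 0 ≤ kin u := com_kin_nonneg u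
  rw [← hSd] at a1 a2 a3 hsq1 hsq2
  have b1 : (E + nucR X Z) * S ≤ -(c0 * n) * S := mul_le_mul_of_nonneg_right hE (by linarith)
  have b4 : z * t * one (near2 X d) u ≤ z * t * (C2 * (kin u + n * S / d ^ 2)) :=
    mul_le_mul_of_nonneg_left a3 (by positivity)
  have b5 : z * t * (C2 * (kin u + n * S / d ^ 2)) = B * kin u + B / d ^ 2 * (n * S) := by
    rw [hB]; field_simp
  have hnS : 0 ≤ n * S := by positivity
  have b6 : (8 * (1 + z) / d * n + z * (n / (4 * t))) * S =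
      8 * (1 + z) / d * (n * S) + z / (4 * t) * (n * S) := by ring
  have b7 := mul_le_mul_of_nonneg_right q1 hnS
  have b8 := mul_le_mul_of_nonneg_right q2 hnS
  have b9 := mul_le_mul_of_nonneg_right q3 hnS
  have b10 : 1 / (4 * (c0 / 8)) * resM X Z E u ≤ c0 / 8 := by
    have e : 1 / (4 * (c0 / 8)) = 2 / c0 := by field_simp; ring
    rw [e]
    calc 2 / c0 * resM X Z E u ≤ 2 / c0 * (c0 ^ 2 / 16) :=
          mul_le_mul_of_nonneg_left hres (by positivity)
      _ = c0 / 8 := by field_simp; ring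
  have b11 : c0 / 8 * S ≤ c0 / 8 * (n * S) := by
    refine mul_le_mul_of_nonneg_left ?_ (by positivity)
    nlinarith
  have b12 : c0 * n / 4 ≤ c0 / 2 * (n * S) := by
    have : (n : ℝ) * (1 / 2) ≤ n * S := mul_le_mul_of_nonneg_left hsq1 (by positivity)
    nlinarith
  have b13 : c0 / 8 * (n : ℝ) ≤ B * kin u := by
    have g1 : c0 / 8 ≤ c0 / 8 * (n : ℝ) := le_mul_of_one_le_right (by positivity) hn1
    have g2 : kin u ≤ -(c0 / 2 * (n * S)) + c0 / 8 + B * kin u := by
      have g3 : -(c0 * n) * S = -(c0 * (n * S)) := by ring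
      rw [b5] at b4
      rw [b6] at a1
      rw [g3] at b1
      linarith
    linarith
  rw [div_mul_eq_mul_div, div_le_iff₀ (by positivity)]
  have g4 : kin u * (8 * (B + 1)) = 8 * (B * kin u) + 8 * kin u := by ring
  rw [g4]
  linarith

end Pool.Agent.Helper21.CF
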